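import Mathlib

/-!
The heights on `k(t)`: the admissible family of absolute values, the product formula and the
Northcott property for a finite field `k` (project RM of helper99, module MW).
-/

set_option autoImplicit false

namespace Pool.Agent.D0H49.RM

open IsDedekindDomain Polynomial Height Function

variable {k : Type} [Field k]

/-- the places of `k[t]` -/
abbrev Pl (k : Type) [Field k] : Type := HeightOneSpectrum k[X]

/-- a generator -/
noncomputable def gen (v : Pl k) : k[X] := Submodule.IsPrincipal.generator v.asIdeal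

lemma span_gen (v : Pl k) : v.asIdeal = Ideal.span {gen v} :=
  (Ideal.span_singleton_generator v.asIdeal).symm

lemma gen_ne (v : Pl k) : gen v ≠ 0 := by
  intro h
  apply v.ne_bot
  rw [span_gen, h]
  simp

lemma prime_gen (v : Pl k) : Prime (gen v) := by
  rw [← Ideal.span_singleton_prime (gen_ne v), ← span_gen]
  exact v.isPrime

/-- the degree of a place -/
noncomputable def dg (v : Pl k) : ℕ := (gen v).natDegree

lemma dg_pos (v : Pl k) : 0 < dg v :=
  (prime_gen v).irreducible.natDegree_pos

/-- the basis of the absolute value -/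
noncomputable def bs (v : Pl k) : NNReal := Real.toNNReal (Real.exp (dg v))

lemma bs_coe (v : Pl k) : ((bs v : NNReal) : ℝ) = Real.exp (dg v) :=
  Real.coe_toNNReal _ (Real.exp_pos _).le

lemma one_lt_bs (v : Pl k) : 1 < bs v := by
  rw [← NNReal.coe_lt_coe, bs_coe, NNReal.coe_one]
  exact Real.one_lt_exp_iff.mpr (by exact_mod_cast dg_pos v)

/-- the absolute value of a place -/
noncomputable def av (v : Pl k) : AbsoluteValue (RatFunc k) ℝ :=
  v.adicAbv (K := RatFunc k) (one_lt_bs v)

lemma av_le_one (v : Pl k) (p : k[X]) : av v (algebraMap k[X] (RatFunc k) p) ≤ 1 :=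
  v.adicAbv_coe_le_one (one_lt_bs v) p

lemma av_lt_one_iff (v : Pl k) (p : k[X]) :
    av v (algebraMap k[X] (RatFunc k) p) < 1 ↔ p ∈ v.asIdeal :=
  v.adicAbv_coe_lt_one_iff (one_lt_bs v) p

lemma av_eq_one_iff (v : Pl k) (p : k[X]) :
    av v (algebraMap k[X] (RatFunc k) p) = 1 ↔ p ∉ v.asIdeal :=
  v.adicAbv_coe_eq_one_iff (one_lt_bs v) p

lemma av_gen (v : Pl k) : av v (algebraMap k[X] (RatFunc k) (gen v)) = Real.exp (-(dg v : ℝ)) := by
  have h := v.adicAbv_of_algebraMap (K := RatFunc k) (one_lt_bs v) (gen v)
  rw [av, h]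
  have h1 : v.intValuation (gen v) = WithZero.exp (-1 : ℤ) :=
    v.intValuation_singleton (gen_ne v) (span_gen v)
  show ((v.intAdicAbvDef (one_lt_bs v) (gen v) : NNReal) : ℝ) = _
  rw [HeightOneSpectrum.intAdicAbvDef, h1]
  have h2 : WithZeroMulInt.toNNReal (ne_zero_of_lt (one_lt_bs v)) (WithZero.exp (-1 : ℤ)) =
      (bs v) ^ (-1 : ℤ) := WithZeroMulInt.toNNReal_neg_apply _ WithZero.exp_ne_zero
  rw [h2]
  push_cast
  rw [bs_coe, zpow_neg_one, Real.exp_neg]

/-- the absolute value at infinity -/
noncomputable def ai (k : Type) [Field k] : AbsoluteValue (RatFunc k) ℝ where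
  toFun x := open Classical in if x = 0 then 0 else Real.exp (x.intDegree)
  map_mul' x y := by
    by_cases hx : x = 0
    · simp [hx]
    by_cases hy : y = 0
    · simp [hy]
    simp only [hx, hy, mul_eq_zero, or_self, if_false]
    rw [RatFunc.intDegree_mul hx hy, ← Real.exp_add]
    push_cast
    rfl
  nonneg' x := by
    by_cases hx : x = 0
    · simp [hx]
    · simp only [hx, if_false]; positivity
  eq_zero' x := by
    by_cases hx : x = 0
    · simp [hx]
    · simp [hx, Real.exp_ne_zero]
  add_le' x y := by
    by_cases hx : x = 0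
    · subst hx
      rw [zero_add, if_pos rfl, zero_add]
    by_cases hy : y = 0
    · subst hy
      rw [add_zero, if_pos (rfl : (0 : RatFunc k) = 0), add_zero]
    by_cases hxy : x + y = 0
    · simp only [hx, hy, hxy, if_true, if_false]; positivity
    simp only [hx, hy, hxy, if_false]
    have h := RatFunc.intDegree_add_le hy hxy
    have p1 := Real.exp_pos (x.intDegree : ℝ)
    have p2 := Real.exp_pos (y.intDegree : ℝ)
    rcases le_max_iff.mp h with h | h
    · have : Real.exp ((x + y).intDegree : ℝ) ≤ Real.exp (x.intDegree : ℝ) :=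
        Real.exp_le_exp.mpr (by exact_mod_cast h)
      linarith
    · have : Real.exp ((x + y).intDegree : ℝ) ≤ Real.exp (y.intDegree : ℝ) :=
        Real.exp_le_exp.mpr (by exact_mod_cast h)
      linarith

open Classical in
lemma ai_apply (x : RatFunc k) : ai k x = if x = 0 then 0 else Real.exp (x.intDegree) := rfl

lemma ai_ne {x : RatFunc k} (hx : x ≠ 0) : ai k x = Real.exp (x.intDegree) := by
  rw [ai_apply, if_neg hx]

lemma ai_nonarch : IsNonarchimedean (ai k) := by
  intro x y
  show ai k (x + y) ≤ max (ai k x) (ai k y)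
  by_cases hx : x = 0
  · simp [hx]
  by_cases hy : y = 0
  · simp [hy]
  by_cases hxy : x + y = 0
  · rw [hxy, map_zero]
    exact le_max_of_le_left (AbsoluteValue.nonneg _ _)
  rw [ai_ne hx, ai_ne hy, ai_ne hxy]
  rcases le_max_iff.mp (RatFunc.intDegree_add_le hy hxy) with h | h
  · exact le_max_of_le_left (Real.exp_le_exp.mpr (by exact_mod_cast h))
  · exact le_max_of_le_right (Real.exp_le_exp.mpr (by exact_mod_cast h))

/-- all absolute values -/
noncomputable def ab (k : Type) [Field k] : Option (Pl k) → AbsoluteValue (RatFunc k) ℝ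
  | none => ai k
  | some v => av v

lemma ideal_eq {v w : Pl k} (h : gen v ∈ w.asIdeal) : v = w := by
  apply HeightOneSpectrum.ext
  have hle : v.asIdeal ≤ w.asIdeal := by
    rw [span_gen v, Ideal.span_singleton_le_iff_mem]
    exact h
  exact v.isMaximal.eq_of_le w.isPrime.ne_top hle

lemma ab_inj : Function.Injective (ab k) := by
  have hmap : ∀ v : Pl k, algebraMap k[X] (RatFunc k) (gen v) ≠ 0 := fun v =>
    (map_ne_zero_iff _ (RatFunc.algebraMap_injective k)).mpr (gen_ne v)
  have key : ∀ v : Pl k, av v ≠ ai k := by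
    intro v h
    have h1 := (av_lt_one_iff v (gen v)).mpr (by rw [span_gen]; exact Ideal.mem_span_singleton_self _)
    rw [h, ai_ne (hmap v), RatFunc.intDegree_polynomial] at h1
    have : (1 : ℝ) ≤ Real.exp (((gen v).natDegree : ℤ) : ℝ) := Real.one_le_exp (by positivity)
    linarith
  intro a b hab
  match a, b with
  | none, none => rfl
  | none, some w => exact absurd hab.symm (key w)
  | some v, none => exact absurd hab (key v)
  | some v, some w =>
    have hab' : av v = av w := hab
    have h1 := (av_lt_one_iff v (gen v)).mpr (by rw [span_gen]; exact Ideal.mem_span_singleton_self _)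
    rw [hab', av_lt_one_iff] at h1
    rw [ideal_eq h1]

lemma fin_poly {p : k[X]} (hp : p ≠ 0) :
    {o : Option (Pl k) | ab k o (algebraMap k[X] (RatFunc k) p) ≠ 1}.Finite := by
  have h0 : {v : Pl k | p ∈ v.asIdeal}.Finite := by
    have := Ideal.finite_factors (R := k[X]) (I := Ideal.span {p}) (by simpa using hp)
    refine this.subset fun v hv => ?_
    simp only [Set.mem_ofPred_eq] at hv ⊢
    rw [Ideal.dvd_span_singleton]
    exact hv
  refine ((h0.image some).union (Set.finite_singleton none)).subset ?_
  intro o ho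
  match o, ho with
  | none, _ => right; rfl
  | some v, ho =>
    left
    refine ⟨v, ?_, rfl⟩
    by_contra hc
    exact ho ((av_eq_one_iff v p).mpr hc)

lemma fin_all {x : RatFunc k} (hx : x ≠ 0) : {o : Option (Pl k) | ab k o x ≠ 1}.Finite := by
  have hn : x.num ≠ 0 := RatFunc.num_ne_zero hx
  have hd : x.denom ≠ 0 := RatFunc.denom_ne_zero x
  refine ((fin_poly hn).union (fin_poly hd)).subset ?_
  intro o ho
  by_contra hc
  simp only [Set.mem_union, Set.mem_ofPred_eq, not_or, not_not] at hc
  apply ho
  show ab k o x = 1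
  rw [← RatFunc.num_div_denom x, map_div₀, hc.1, hc.2, div_one]

/-- the product over all places -/
noncomputable def pr (x : RatFunc k) : ℝ := ∏ᶠ o : Option (Pl k), ab k o x

lemma pr_mul {x y : RatFunc k} (hx : x ≠ 0) (hy : y ≠ 0) : pr (x * y) = pr x * pr y := by
  rw [pr, pr, pr, ← finprod_mul_distrib (fin_all hx) (fin_all hy)]
  exact finprod_congr fun o => map_mul _ _ _

lemma pr_unit {p : k[X]} (hp : IsUnit p) : pr (algebraMap k[X] (RatFunc k) p) = 1 := by
  have hne : algebraMap k[X] (RatFunc k) p ≠ 0 :=
    (map_ne_zero_iff _ (RatFunc.algebraMap_injective k)).mpr hp.ne_zero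
  rw [pr]
  apply finprod_eq_one_of_forall_eq_one
  intro o
  match o with
  | none =>
    show ai k _ = 1
    rw [ai_ne hne, RatFunc.intDegree_polynomial, Polynomial.natDegree_eq_zero_of_isUnit hp]
    simp
  | some v =>
    show av v _ = 1
    rw [av_eq_one_iff]
    intro h
    exact v.isPrime.ne_top (Ideal.eq_top_of_isUnit_mem _ h hp)

lemma pr_prime {p : k[X]} (hp : Prime p) : pr (algebraMap k[X] (RatFunc k) p) = 1 := by
  classical
  have hne : algebraMap k[X] (RatFunc k) p ≠ 0 :=
    (map_ne_zero_iff _ (RatFunc.algebraMap_injective k)).mpr hp.ne_zero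
  let v : Pl k := ⟨Ideal.span {p}, (Ideal.span_singleton_prime hp.ne_zero).mpr hp, by
    simpa using hp.ne_zero⟩
  have hv : Associated (gen v) p := by
    rw [← Ideal.span_singleton_eq_span_singleton, ← span_gen]
  have hdeg : (gen v).natDegree = p.natDegree :=
    Polynomial.natDegree_eq_of_degree_eq (Polynomial.degree_eq_degree_of_associated hv)
  have hav : av v (algebraMap k[X] (RatFunc k) p) = Real.exp (-(p.natDegree : ℝ)) := by
    obtain ⟨u, hu⟩ := hv
    rw [← hu, map_mul, map_mul, av_gen, dg, hdeg]
    have : av v (algebraMap k[X] (RatFunc k) (u : k[X])) = 1 := by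
      rw [av_eq_one_iff]
      intro h
      exact v.isPrime.ne_top (Ideal.eq_top_of_isUnit_mem _ h u.isUnit)
    rw [this, mul_one, hu]
  have hother : ∀ w : Pl k, w ≠ v → av w (algebraMap k[X] (RatFunc k) p) = 1 := by
    intro w hw
    rw [av_eq_one_iff]
    intro h
    apply hw
    apply (ideal_eq (v := v) (w := w) ?_).symm
    obtain ⟨u, hu⟩ := hv.symm
    rw [← hu]
    exact Ideal.mul_mem_right _ _ h
  rw [pr, finprod_eq_prod_of_mulSupport_subset (s := ({none, some v} : Finset (Option (Pl k))))]
  · rw [Finset.prod_pair (by simp)]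
    show ai k _ * av v _ = 1
    rw [ai_ne hne, hav, RatFunc.intDegree_polynomial, ← Real.exp_add]
    simp
  · intro o ho
    match o, ho with
    | none, _ => simp
    | some w, ho =>
      by_contra hc
      apply ho
      apply hother w
      intro h
      apply hc
      simp [h]

lemma pr_poly {p : k[X]} (hp : p ≠ 0) : pr (algebraMap k[X] (RatFunc k) p) = 1 := by
  induction p using UniqueFactorizationMonoid.induction_on_prime with
  | h₁ => exact absurd rfl hp
  | h₂ x hx => exact pr_unit hx
  | h₃ a q ha hq ih =>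
    rw [map_mul, pr_mul, pr_prime hq, ih ha, one_mul]
    · exact (map_ne_zero_iff _ (RatFunc.algebraMap_injective k)).mpr hq.ne_zero
    · exact (map_ne_zero_iff _ (RatFunc.algebraMap_injective k)).mpr ha

lemma pr_eq_one {x : RatFunc k} (hx : x ≠ 0) : pr x = 1 := by
  have hn : x.num ≠ 0 := RatFunc.num_ne_zero hx
  have hd : x.denom ≠ 0 := RatFunc.denom_ne_zero x
  have hd' : algebraMap k[X] (RatFunc k) x.denom ≠ 0 :=
    (map_ne_zero_iff _ (RatFunc.algebraMap_injective k)).mpr hd
  have h1 : x * algebraMap k[X] (RatFunc k) x.denom = algebraMap k[X] (RatFunc k) x.num := by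
    conv_lhs => rw [← RatFunc.num_div_denom x]
    rw [RatFunc.num_div_denom]
    exact (div_eq_iff hd').mp (RatFunc.num_div_denom x) |>.symm
  have h2 := pr_mul hx hd'
  rw [h1, pr_poly hn, pr_poly hd, mul_one] at h2
  exact h2.symm

lemma range_finprod (f : AbsoluteValue (RatFunc k) ℝ → ℝ) :
    (∏ᶠ v : (Set.range (ab k)), f v.val) = ∏ᶠ o : Option (Pl k), f (ab k o) :=
  (finprod_comp_equiv (Equiv.ofInjective (ab k) ab_inj) (f := fun v : Set.range (ab k) => f v.val)).symm

/-- the admissible family -/
noncomputable instance inst : AdmissibleAbsValues (RatFunc k) where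
  archAbsVal := 0
  nonarchAbsVal := Set.range (ab k)
  isNonarchimedean v hv := by
    obtain ⟨o, rfl⟩ := hv
    match o with
    | none => exact ai_nonarch
    | some v => exact v.isNonarchimedean_adicAbv (one_lt_bs v)
  hasFiniteMulSupport {x} hx := by
    have h := fin_all hx
    have : (Function.mulSupport fun v : Set.range (ab k) => v.val x) ⊆
        (Equiv.ofInjective (ab k) ab_inj) '' {o : Option (Pl k) | ab k o x ≠ 1} := by
      rintro ⟨_, o, rfl⟩ hv
      exact ⟨o, hv, rfl⟩
    exact (h.image _).subset this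
  product_formula {x} hx := by
    rw [Multiset.map_zero, Multiset.prod_zero, one_mul]
    exact (range_finprod (fun v => v x)).trans (pr_eq_one hx)

/-- the height of a fraction in lowest terms -/
lemma height_ge {a b : k[X]} (hb : b ≠ 0) (hab : IsCoprime a b) :
    Real.exp (max a.natDegree b.natDegree : ℕ) ≤
      mulHeight ![algebraMap k[X] (RatFunc k) a, algebraMap k[X] (RatFunc k) b] := by
  classical
  have hb' : algebraMap k[X] (RatFunc k) b ≠ 0 :=
    (map_ne_zero_iff _ (RatFunc.algebraMap_injective k)).mpr hb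
  have hne : ![algebraMap k[X] (RatFunc k) a, algebraMap k[X] (RatFunc k) b] ≠ 0 := by
    intro h
    exact hb' (congrFun h 1)
  rw [mulHeight_eq hne]
  have e1 : (AdmissibleAbsValues.archAbsVal (K := RatFunc k)) = 0 := rfl
  rw [e1, Multiset.map_zero, Multiset.prod_zero, one_mul]
  have e2 : (∏ᶠ v : (AdmissibleAbsValues.nonarchAbsVal (K := RatFunc k)),
      ⨆ i, v.val (![algebraMap k[X] (RatFunc k) a, algebraMap k[X] (RatFunc k) b] i)) =
      ∏ᶠ o : Option (Pl k), ⨆ i, ab k o (![algebraMap k[X] (RatFunc k) a, algebraMap k[X] (RatFunc k) b] i) :=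
    range_finprod (fun v => ⨆ i, v (![algebraMap k[X] (RatFunc k) a, algebraMap k[X] (RatFunc k) b] i))
  rw [e2]
  have e3 : ∀ f : Fin 2 → ℝ, (⨆ i, f i) = max (f 0) (f 1) := by
    intro f
    apply le_antisymm
    · apply ciSup_le
      intro i
      fin_cases i
      · exact le_max_left _ _
      · exact le_max_right _ _
    · exact max_le (le_ciSup (Set.finite_range f).bddAbove 0) (le_ciSup (Set.finite_range f).bddAbove 1)
  have e4 : (fun o : Option (Pl k) => ⨆ i, ab k o (![algebraMap k[X] (RatFunc k) a, algebraMap k[X] (RatFunc k) b] i))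
      = fun o => max (ab k o (algebraMap k[X] (RatFunc k) a)) (ab k o (algebraMap k[X] (RatFunc k) b)) := by
    funext o
    rw [e3]
    rfl
  have e5 : (∏ᶠ o : Option (Pl k), ⨆ i, ab k o (![algebraMap k[X] (RatFunc k) a, algebraMap k[X] (RatFunc k) b] i))
      = ∏ᶠ o : Option (Pl k), max (ab k o (algebraMap k[X] (RatFunc k) a)) (ab k o (algebraMap k[X] (RatFunc k) b)) :=
    congrArg finprod e4
  rw [e5, finprod_eq_single _ none]
  · show _ ≤ max (ai k _) (ai k _)
    rw [ai_ne hb', RatFunc.intDegree_polynomial]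
    by_cases ha : a = 0
    · rw [ha, map_zero, map_zero]
      apply le_max_of_le_right
      simp
    · have ha' : algebraMap k[X] (RatFunc k) a ≠ 0 :=
        (map_ne_zero_iff _ (RatFunc.algebraMap_injective k)).mpr ha
      rw [ai_ne ha', RatFunc.intDegree_polynomial]
      rcases le_total a.natDegree b.natDegree with h | h
      · rw [max_eq_right h]
        exact le_max_of_le_right (by simp)
      · rw [max_eq_left h]
        exact le_max_of_le_left (by simp)
  · intro o ho
    match o, ho with
    | some v, _ =>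
      show max (av v _) (av v _) = 1
      apply le_antisymm (max_le (av_le_one v a) (av_le_one v b))
      by_contra hc
      push Not at hc
      rw [max_lt_iff, av_lt_one_iff, av_lt_one_iff] at hc
      obtain ⟨s, t, hst⟩ := hab
      apply v.isPrime.ne_top
      rw [Ideal.eq_top_iff_one, ← hst]
      exact Ideal.add_mem _ (Ideal.mul_mem_left _ _ hc.1) (Ideal.mul_mem_left _ _ hc.2)

lemma fin_deg [Finite k] (n : ℕ) : {p : k[X] | p.natDegree ≤ n}.Finite := by
  have : {p : k[X] | p.natDegree ≤ n} ⊆ (Polynomial.degreeLT k (n + 1) : Set k[X]) := by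
    intro p hp
    rw [SetLike.mem_coe, Polynomial.mem_degreeLT]
    exact lt_of_le_of_lt Polynomial.degree_le_natDegree (by exact_mod_cast Nat.lt_succ_of_le hp)
  refine Set.Finite.subset ?_ this
  have : Finite (Polynomial.degreeLT k (n + 1)) :=
    Finite.of_equiv _ (Polynomial.degreeLTEquiv k (n + 1)).toEquiv.symm
  exact Set.toFinite _

/-- the Northcott property -/
instance north [Finite k] : Northcott (mulHeight₁ (K := RatFunc k)) where
  finite_le B := by
    obtain ⟨n, hn⟩ := exists_nat_gt (Real.log (max B 1))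
    have hf := ((fin_deg (k := k) n).prod (fin_deg (k := k) n)).image
      (fun p : k[X] × k[X] => algebraMap k[X] (RatFunc k) p.1 / algebraMap k[X] (RatFunc k) p.2)
    refine hf.subset ?_
    intro x hx
    simp only [Set.mem_ofPred_eq] at hx
    refine ⟨(x.num, x.denom), ?_, RatFunc.num_div_denom x⟩
    have h := height_ge (RatFunc.denom_ne_zero x) (RatFunc.isCoprime_num_denom x)
    rw [← mulHeight₁_div_eq_mulHeight, RatFunc.num_div_denom] at h
    have h2 : ((max x.num.natDegree x.denom.natDegree : ℕ) : ℝ) ≤ Real.log (max B 1) := by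
      rw [Real.le_log_iff_exp_le (by positivity)]
      exact (h.trans hx).trans (le_max_left _ _)
    have h3 : max x.num.natDegree x.denom.natDegree ≤ n := by
      exact_mod_cast (h2.trans hn.le)
    exact ⟨(le_max_left _ _).trans h3, (le_max_right _ _).trans h3⟩

end Pool.Agent.D0H49.RM
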