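import Pool.Agent.D0H49.RM.Abs

/-!
Adapted from the starting file `Pool.Agent.D0H49.RM.ParPar` (number fields) to any field with heights in
which `2` is not zero.
-/

set_option autoImplicit false

open WeierstrassCurve Height

namespace Pool.Agent.D0H49.RM.Par

variable {K : Type} [Field K]

lemma four_ne [NeZero (2 : K)] : (4 : K) ≠ 0 := by
  have : (4 : K) = 2 ^ 2 := by norm_num
  rw [this]; exact pow_ne_zero _ (NeZero.ne 2)

/-- The curve `y^2 = (x+e1)(x+e2)(x+e3)`. -/
def crv (e1 e2 e3 : K) : WeierstrassCurve K :=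
  { a₁ := 0, a₂ := e1 + e2 + e3, a₃ := 0, a₄ := e1 * e2 + e1 * e3 + e2 * e3, a₆ := e1 * e2 * e3 }

lemma crv_Δ (e1 e2 e3 : K) :
    (crv e1 e2 e3).Δ = 16 * ((e1 - e2) * (e1 - e3) * (e2 - e3)) ^ 2 := by
  simp only [WeierstrassCurve.Δ, WeierstrassCurve.b₂, WeierstrassCurve.b₄, WeierstrassCurve.b₆,
    WeierstrassCurve.b₈, crv]
  ring

lemma crv_ell [NeZero (2 : K)] {e1 e2 e3 : K} (h12 : e1 ≠ e2) (h13 : e1 ≠ e3) (h23 : e2 ≠ e3) :
    (crv e1 e2 e3).IsElliptic := by
  refine ⟨?_⟩
  rw [crv_Δ, isUnit_iff_ne_zero]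
  have := sub_ne_zero.mpr h12
  have := sub_ne_zero.mpr h13
  have := sub_ne_zero.mpr h23
  have h2 : (2 : K) ≠ 0 := NeZero.ne 2
  have h16 : (16 : K) ≠ 0 := by
    have : (16 : K) = 2 ^ 4 := by norm_num
    rw [this]; exact pow_ne_zero _ h2
  exact mul_ne_zero h16 (pow_ne_zero _ (mul_ne_zero (mul_ne_zero ‹_› ‹_›) ‹_›))

/-- The affine points. -/
abbrev Pt (e1 e2 e3 : K) : Type := (crv e1 e2 e3).toAffine.Point

lemma crv_eqn {e1 e2 e3 x y : K} :
    (crv e1 e2 e3).toAffine.Equation x y ↔ y ^ 2 = (x + e1) * (x + e2) * (x + e3) := by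
  rw [WeierstrassCurve.Affine.equation_iff]
  simp only [crv]
  constructor <;> intro h <;> linear_combination h

lemma crv_nonsing [NeZero (2 : K)] {e1 e2 e3 x y : K} (h12 : e1 ≠ e2) (h13 : e1 ≠ e3) (h23 : e2 ≠ e3)
    (h : y ^ 2 = (x + e1) * (x + e2) * (x + e3)) :
    (crv e1 e2 e3).toAffine.Nonsingular x y := by
  have := crv_ell h12 h13 h23
  exact WeierstrassCurve.Affine.equation_iff_nonsingular.mp (crv_eqn.mpr h)

/-- numerator of `x(P+Q)` where `s = y1*y2` -/
def numr (e1 e2 e3 x1 x2 s : K) : K :=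
  x1 * x2 * (x1 + x2) + 2 * (e1 + e2 + e3) * x1 * x2 + (e1 * e2 + e1 * e3 + e2 * e3) * (x1 + x2)
    + 2 * (e1 * e2 * e3) - 2 * s

section dec

variable [DecidableEq K]

lemma neg_mk {e1 e2 e3 x y : K} (h : (crv e1 e2 e3).toAffine.Nonsingular x y)
    (h' : (crv e1 e2 e3).toAffine.Nonsingular x (-y)) :
    -(Affine.Point.some x y h) = (Affine.Point.some x (-y) h') := by
  rw [Affine.Point.neg_some]
  congr 1
  simp [Affine.negY, crv]

lemma xRep_add {e1 e2 e3 x1 y1 x2 y2 : K} (h1 : (crv e1 e2 e3).toAffine.Nonsingular x1 y1)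
    (h2 : (crv e1 e2 e3).toAffine.Nonsingular x2 y2) (hx : x1 ≠ x2) :
    (Affine.Point.some x1 y1 h1 + Affine.Point.some x2 y2 h2).xRep
      = ![numr e1 e2 e3 x1 x2 (y1 * y2) / (x1 - x2) ^ 2, 1] := by
  rw [Affine.Point.add_of_X_ne hx, Affine.Point.xRep_some]
  congr 1
  rw [Affine.slope_of_X_ne hx, Affine.addX]
  have e1' := crv_eqn.mp h1.1
  have e2' := crv_eqn.mp h2.1
  have hx' : x1 - x2 ≠ 0 := sub_ne_zero.mpr hx
  simp only [crv, numr]
  field_simp
  ring_nf
  ring_nf at e1' e2'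
  linear_combination e1' + e2'

lemma eval_addSub (e1 e2 e3 s t u : K) :
    (fun i ↦ (addSubMap (crv e1 e2 e3) i).eval ![s, t, u])
      = ![s ^ 2 - 2 * (e1 * e2 + e1 * e3 + e2 * e3) * s * u - 4 * (e1 * e2 * e3) * t * u
            - (4 * (e1 + e2 + e3) * (e1 * e2 * e3) - (e1 * e2 + e1 * e3 + e2 * e3) ^ 2) * u ^ 2,
          2 * t * s + 4 * (e1 + e2 + e3) * s * u + 2 * (e1 * e2 + e1 * e3 + e2 * e3) * t * u
            + 4 * (e1 * e2 * e3) * u ^ 2,
          t ^ 2 - 4 * s * u] := by
  funext i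
  fin_cases i
  · simp only [addSubMap, WeierstrassCurve.b₂, WeierstrassCurve.b₄, WeierstrassCurve.b₆,
      WeierstrassCurve.b₈, crv]
    simp
    try ring
  · simp only [addSubMap, WeierstrassCurve.b₂, WeierstrassCurve.b₄, WeierstrassCurve.b₆,
      WeierstrassCurve.b₈, crv]
    simp
    try ring
  · simp only [addSubMap, WeierstrassCurve.b₂, WeierstrassCurve.b₄, WeierstrassCurve.b₆,
      WeierstrassCurve.b₈, crv]
    simp

variable [NeZero (2 : K)]

lemma xRep_double {e1 e2 e3 x y : K} (h : (crv e1 e2 e3).toAffine.Nonsingular x y) (hy : y ≠ 0) :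
    (Affine.Point.some x y h + Affine.Point.some x y h).xRep
      = ![(x ^ 4 - 2 * (e1 * e2 + e1 * e3 + e2 * e3) * x ^ 2 - 8 * (e1 * e2 * e3) * x
          - (4 * (e1 + e2 + e3) * (e1 * e2 * e3) - (e1 * e2 + e1 * e3 + e2 * e3) ^ 2)) / (4 * y ^ 2), 1] := by
  have hy' : y ≠ (crv e1 e2 e3).toAffine.negY x y := by
    simp only [Affine.negY, crv]
    intro hh
    apply hy
    have h2 : (2 : K) * y = 0 := by linear_combination hh
    rcases mul_eq_zero.mp h2 with h3 | h3
    · exact absurd h3 (NeZero.ne 2)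
    · exact h3
  rw [Affine.Point.add_self_of_Y_ne hy', Affine.Point.xRep_some]
  congr 1
  rw [Affine.slope_of_Y_ne rfl hy', Affine.addX]
  have e' := crv_eqn.mp h.1
  have h4 : y ^ 2 * 4 ≠ 0 := mul_ne_zero (pow_ne_zero _ hy) four_ne
  simp only [crv, Affine.negY]
  have e3' : y - (-y - 0 * x - 0) = 2 * y := by ring
  have f4 : (4 : K) ≠ 0 := four_ne
  have f2 : (2 : K) ≠ 0 := NeZero.ne 2
  rw [e3']
  field_simp
  ring_nf
  ring_nf at e'
  linear_combination (-16 * (2 * x + e1 + e2 + e3)) * e'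

/-- the addition-subtraction map does what it should. -/
lemma addSub_sym2x {e1 e2 e3 : K} (h12 : e1 ≠ e2) (h13 : e1 ≠ e3) (h23 : e2 ≠ e3)
    (P Q : Pt e1 e2 e3) :
    ∃ c : K, c ≠ 0 ∧ (fun i ↦ (addSubMap (crv e1 e2 e3) i).eval (P.sym2x Q))
      = c • (P + Q).sym2x (P - Q) := by
  match P, Q with
  | 0, 0 =>
    refine ⟨1, one_ne_zero, ?_⟩
    rw [Affine.Point.sym2x_zero_zero, eval_addSub]
    simp
  | 0, .some x y h =>
    refine ⟨1, one_ne_zero, ?_⟩
    rw [Affine.Point.sym2x_zero_some, eval_addSub, zero_add, zero_sub, Affine.Point.sym2x_neg_right,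
      Affine.Point.sym2x_some_some]
    simp only [one_smul]
    ext i
    fin_cases i <;> simp <;> ring
  | .some x y h, 0 =>
    refine ⟨1, one_ne_zero, ?_⟩
    rw [Affine.Point.sym2x_some_zero, eval_addSub, add_zero, sub_zero,
      Affine.Point.sym2x_some_some]
    simp only [one_smul]
    ext i
    fin_cases i <;> simp <;> ring
  | .some x1 y1 h1, .some x2 y2 h2 =>
    have q1 := crv_eqn.mp h1.1
    have q2 := crv_eqn.mp h2.1
    by_cases hx : x1 = x2
    · subst hx
      -- P = ± Q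
      have hyy : y1 = y2 ∨ y1 = -y2 := by
        apply sq_eq_sq_iff_eq_or_eq_neg.mp
        rw [q1, q2]
      have main : ∀ (y : K) (h : (crv e1 e2 e3).toAffine.Nonsingular x1 y),
          ∃ c : K, c ≠ 0 ∧ (fun i ↦ (addSubMap (crv e1 e2 e3) i).eval
            ((Affine.Point.some x1 y h : Pt e1 e2 e3).sym2x (Affine.Point.some x1 y h)))
            = c • ((Affine.Point.some x1 y h : Pt e1 e2 e3) + Affine.Point.some x1 y h).sym2x 0 := by
        intro y h
        have q := crv_eqn.mp h.1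
        by_cases hy : y = 0
        · subst hy
          have hneg : (Affine.Point.some x1 0 h : Pt e1 e2 e3) + Affine.Point.some x1 0 h = 0 := by
            apply Affine.Point.add_self_of_Y_eq
            simp [Affine.negY, crv]
          rw [hneg, Affine.Point.sym2x_zero_zero, Affine.Point.sym2x_some_some, eval_addSub]
          have hq : (x1 + e1) * (x1 + e2) * (x1 + e3) = 0 := by rw [← q]; ring
          refine ⟨x1 ^ 4 - 2 * (e1 * e2 + e1 * e3 + e2 * e3) * x1 ^ 2 - 8 * (e1 * e2 * e3) * x1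
            - (4 * (e1 + e2 + e3) * (e1 * e2 * e3) - (e1 * e2 + e1 * e3 + e2 * e3) ^ 2), ?_, ?_⟩
          · have d12 := sub_ne_zero.mpr h12
            have d13 := sub_ne_zero.mpr h13
            have d23 := sub_ne_zero.mpr h23
            rcases mul_eq_zero.mp hq with hq' | hq'
            · rcases mul_eq_zero.mp hq' with hq'' | hq''
              · have : x1 = -e1 := by linear_combination hq''
                subst this
                have : (-e1) ^ 4 - 2 * (e1 * e2 + e1 * e3 + e2 * e3) * (-e1) ^ 2 - 8 * (e1 * e2 * e3) * (-e1)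
                  - (4 * (e1 + e2 + e3) * (e1 * e2 * e3) - (e1 * e2 + e1 * e3 + e2 * e3) ^ 2)
                  = ((e1 - e2) * (e1 - e3)) ^ 2 := by ring
                rw [this]
                exact pow_ne_zero _ (mul_ne_zero d12 d13)
              · have : x1 = -e2 := by linear_combination hq''
                subst this
                have : (-e2) ^ 4 - 2 * (e1 * e2 + e1 * e3 + e2 * e3) * (-e2) ^ 2 - 8 * (e1 * e2 * e3) * (-e2)
                  - (4 * (e1 + e2 + e3) * (e1 * e2 * e3) - (e1 * e2 + e1 * e3 + e2 * e3) ^ 2)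
                  = ((e1 - e2) * (e2 - e3)) ^ 2 := by ring
                rw [this]
                exact pow_ne_zero _ (mul_ne_zero d12 d23)
            · have : x1 = -e3 := by linear_combination hq'
              subst this
              have : (-e3) ^ 4 - 2 * (e1 * e2 + e1 * e3 + e2 * e3) * (-e3) ^ 2 - 8 * (e1 * e2 * e3) * (-e3)
                - (4 * (e1 + e2 + e3) * (e1 * e2 * e3) - (e1 * e2 + e1 * e3 + e2 * e3) ^ 2)
                = ((e1 - e3) * (e2 - e3)) ^ 2 := by ring
              rw [this]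
              exact pow_ne_zero _ (mul_ne_zero d13 d23)
          · ext i
            fin_cases i
            · simp
              ring
            · simp
              linear_combination 4 * hq
            · simp
              ring
        · have hd := xRep_double h hy
          have hy4 : 4 * y ^ 2 ≠ 0 := mul_ne_zero four_ne (pow_ne_zero _ hy)
          have f4 : (4 : K) ≠ 0 := four_ne
          have f2 : (2 : K) ≠ 0 := NeZero.ne 2
          refine ⟨4 * y ^ 2, hy4, ?_⟩
          rw [Affine.Point.sym2x_some_some, eval_addSub]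
          ext i
          fin_cases i
          · simp [Affine.Point.sym2x, hd]
            field_simp
            ring
          · simp [Affine.Point.sym2x, hd]
            linear_combination (-4) * q
          · simp [Affine.Point.sym2x, hd]
            ring
      rcases hyy with hyy | hyy
      · subst hyy
        have := main y1 h1
        rwa [sub_self]
      · subst hyy
        have hne : (Affine.Point.some x1 (-y2) h1 : Pt e1 e2 e3) = -Affine.Point.some x1 y2 h2 := by
          rw [neg_mk]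
        rw [hne]
        rw [Affine.Point.sym2x_neg_left, neg_add_cancel, Affine.Point.sym2x_comm 0, ← neg_add',
          Affine.Point.sym2x_neg_left]
        exact main y2 h2
    · have hx' : x1 - x2 ≠ 0 := sub_ne_zero.mpr hx
      have h2' : (crv e1 e2 e3).toAffine.Nonsingular x2 (-y2) := by
        apply crv_nonsing h12 h13 h23
        rw [← q2]; ring
      have ha := xRep_add h1 h2 hx
      have hb := xRep_add h1 h2' hx
      rw [← neg_mk h2 h2', ← sub_eq_add_neg] at hb
      refine ⟨(x1 - x2) ^ 2, pow_ne_zero _ hx', ?_⟩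
      rw [Affine.Point.sym2x_some_some, eval_addSub]
      ext i
      fin_cases i
      · simp [Affine.Point.sym2x, ha, hb, numr]
        field_simp
        linear_combination 4 * y2 ^ 2 * q1 + 4 * ((x1 + e1) * (x1 + e2) * (x1 + e3)) * q2
      · simp [Affine.Point.sym2x, ha, hb, numr]
        field_simp
        ring
      · simp [Affine.Point.sym2x, ha, hb, numr]
        ring

end dec

/-- naive height -/
noncomputable def ht [AdmissibleAbsValues K] {e1 e2 e3 : K} (P : Pt e1 e2 e3) : ℝ := logHeight P.xRep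

variable [AdmissibleAbsValues K]

lemma ht_nonneg {e1 e2 e3 : K} (P : Pt e1 e2 e3) : 0 ≤ ht P := logHeight_nonneg _

lemma ht_zero {e1 e2 e3 : K} : ht (0 : Pt e1 e2 e3) = 0 := by
  rw [ht, Affine.Point.xRep_zero, logHeight_swap, ← logHeight₁_eq_logHeight, logHeight₁_zero]

lemma sym2x_height (e1 e2 e3 : K) : ∃ C : ℝ, ∀ P Q : Pt e1 e2 e3,
    |logHeight (P.sym2x Q) - (ht P + ht Q)| ≤ C := by
  obtain ⟨C, hC⟩ := abs_logHeight_sym2_sub_le K
  refine ⟨C, fun P Q ↦ ?_⟩
  have hP : P.xRep = ![P.xRep 0, P.xRep 1] := by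
    ext i; fin_cases i <;> simp
  have hQ : Q.xRep = ![Q.xRep 0, Q.xRep 1] := by
    ext i; fin_cases i <;> simp
  have hP0 : ![P.xRep 0, P.xRep 1] ≠ 0 := by rw [← hP]; exact P.xRep_ne_zero
  have hQ0 : ![Q.xRep 0, Q.xRep 1] ≠ 0 := by rw [← hQ]; exact Q.xRep_ne_zero
  have := hC hP0 hQ0
  rw [← hP, ← hQ] at this
  exact this

/-- approximate parallelogram law for the naive height -/
theorem par_law [NeZero (2 : K)] [DecidableEq K] {e1 e2 e3 : K} (h12 : e1 ≠ e2) (h13 : e1 ≠ e3) (h23 : e2 ≠ e3) :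
    ∃ C : ℝ, 0 ≤ C ∧ ∀ P Q : Pt e1 e2 e3,
      |ht (P + Q) + ht (P - Q) - 2 * (ht P + ht Q)| ≤ C := by
  have := crv_ell h12 h13 h23
  obtain ⟨C1, hC1⟩ := sym2x_height e1 e2 e3
  obtain ⟨C2, hC2⟩ := WeierstrassCurve.abs_logHeight_addSubMap_sub_two_mul_logHeight_le (crv e1 e2 e3)
  have key : ∀ P Q : Pt e1 e2 e3,
      |ht (P + Q) + ht (P - Q) - 2 * (ht P + ht Q)| ≤ 3 * C1 + C2 := by
    intro P Q
    have a1 := hC1 P Q
    have a2 := hC1 (P + Q) (P - Q)
    have a3 := hC2 (P.sym2x Q)
    obtain ⟨c, hc, hceq⟩ := addSub_sym2x h12 h13 h23 P Q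
    rw [hceq, logHeight_smul_eq_logHeight _ hc] at a3
    rw [abs_le] at a1 a2 a3 ⊢
    constructor <;> linarith [a1.1, a1.2, a2.1, a2.2, a3.1, a3.2]
  refine ⟨3 * C1 + C2, le_trans (abs_nonneg _) (key 0 0), key⟩

lemma finite_ht [Northcott (mulHeight₁ (K := K))] {e1 e2 e3 : K} (B : ℝ) : {P : Pt e1 e2 e3 | ht P ≤ B}.Finite := by
  classical
  have hfin := Northcott.finite_le (h := logHeight₁ (K := K)) B
  -- the map P ↦ xRep has finite fibres
  have h1 : ((fun P : Pt e1 e2 e3 => P.xRep) '' {P : Pt e1 e2 e3 | ht P ≤ B}).Finite := by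
    apply Set.Finite.subset ((hfin.image (fun x : K => ![x, 1])).union (Set.finite_singleton ![1, 0]))
    rintro _ ⟨P, hP, rfl⟩
    match P, hP with
    | 0, _ => right; simp
    | .some x y h, hP =>
      left
      refine ⟨x, ?_, by simp⟩
      simp only [Set.mem_ofPred_eq, ht, Affine.Point.xRep_some] at hP
      simp only [Set.mem_ofPred_eq]
      rw [logHeight₁_eq_logHeight]
      exact hP
  apply Set.Finite.of_finite_fibers _ h1
  intro v _
  by_cases hv : ∃ P : Pt e1 e2 e3, P.xRep = v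
  · obtain ⟨P, rfl⟩ := hv
    apply Set.Finite.subset (s := {P, -P}) (by simp)
    intro Q hQ
    have : Q.xRep = P.xRep := hQ.2
    rcases Affine.Point.eq_or_eq_neg_of_xRep_eq_xRep this with h | h
    · left; exact h
    · right; exact h
  · apply Set.Finite.subset (Set.finite_empty)
    intro Q hQ
    exact absurd ⟨Q, hQ.2⟩ hv

end Pool.Agent.D0H49.RM.Par
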