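import Pool.Agent.D0H99.RM.Stm2
import Pool.Agent.D0H49.RM.Par

/-!
Project RM (helper99), module MW: the theorem of Mordell-Weil over `k(t)` for curves with full
level two, from the finiteness of `E / 2 E`.
-/

set_option autoImplicit false

namespace Pool.Agent.D0H49.RM

open Height WeierstrassCurve

open scoped Classical in
/-- any field with heights, the Northcott property and `2 ≠ 0` -/
theorem mw {K : Type} [Field K] [AdmissibleAbsValues K] [Northcott (mulHeight₁ (K := K))]
    (h2 : (2 : K) ≠ 0) {e1 e2 e3 : K} (h12 : e1 ≠ e2) (h13 : e1 ≠ e3) (h23 : e2 ≠ e3)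
    (hfin : (nsmulAddMonoidHom (α := (Par.crv e1 e2 e3).toAffine.Point) 2).range.FiniteIndex) :
    AddGroup.FG (Par.crv e1 e2 e3).toAffine.Point := by
  have : NeZero (2 : K) := ⟨h2⟩
  obtain ⟨C, -, hC⟩ := Par.par_law h12 h13 h23
  have : Northcott (Par.ht (e1 := e1) (e2 := e2) (e3 := e3)) := ⟨fun B => Par.finite_ht B⟩
  exact AddCommGroup.fg_of_descent' (h := Par.ht (e1 := e1) (e2 := e2) (e3 := e3)) hfin
    Par.ht_nonneg hC

theorem t_MW : Pool.Agent.D0H99.RM.S_MW := by
  intro k _ _ h2 e1 e2 e3 h12 h13 h23 hfin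
  have h2' : (2 : RatFunc k) ≠ 0 := by
    have : (2 : RatFunc k) = algebraMap k (RatFunc k) 2 := (map_ofNat (algebraMap k (RatFunc k)) 2).symm
    rw [this]
    exact (map_ne_zero _).mpr h2
  have hc : Pool.Agent.D0H99.RM.crv e1 e2 e3 = Par.crv (-e1) (-e2) (-e3) := by
    simp only [Pool.Agent.D0H99.RM.crv, Par.crv]
    congr 1 <;> ring
  rw [hc] at hfin ⊢
  exact mw h2' (fun h => h12 (neg_injective h)) (fun h => h13 (neg_injective h))
    (fun h => h23 (neg_injective h)) hfin

end Pool.Agent.D0H49.RM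

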